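import Pool.Agent.MWG.Stmts

/-!
# Row ALZ of block MWG
-/

namespace Pool.Agent.MWG.H89

open Pool.Agent.Helper14_MV Pool.Agent.Helper2_MV Pool.Agent.MVO Pool.Agent.MWL Pool.Agent.MWS
  Pool.Agent.MWG

theorem alz_dt_symm {k : ℕ} {a a' : ℕ → ℕ} (h : Dt k a a') : Dt k a' a :=
  fun i hi => ⟨(h i hi).1.symm, (h i hi).2.symm⟩

theorem alz_dt_trans {k : ℕ} {a b c : ℕ → ℕ} (h : Dt k a b) (h' : Dt k b c) : Dt k a c :=
  fun i hi => ⟨(h i hi).1.trans (h' i hi).1, (h i hi).2.trans (h' i hi).2⟩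

theorem alz_dt_congr {k : ℕ} {a a' : ℕ → ℕ} (h : ∀ j ≤ k, a j = a' j) : Dt k a a' := by
  intro i hi
  constructor
  · have h1 : deg i a = deg i a' := by
      unfold deg
      apply Finset.sum_congr rfl
      intro j hj
      rw [Finset.mem_range] at hj
      exact h j (by omega)
    rw [h1]
  · constructor
    · intro h1 j hj hjk
      rw [← h j hjk]
      exact h1 j hj hjk
    · intro h1 j hj hjk
      rw [h j hjk]
      exact h1 j hj hjk

/-- what the types say about the letters -/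
theorem alz_facts {k i : ℕ} {C : ℕ → List ℕ} {z w : ℕ → ℕ} (hi : i ≤ k)
    (hz : Dt k (ty C 0) z) (hw : Dt k (ty C 1) w) (z1 : z i = 1) (z0 : ∀ j < i, z j = 0)
    (z2 : ∃ j, i < j ∧ j ≤ k ∧ z j ≠ 0) (w2 : ∀ j, i < j → j ≤ k → w j = 0) :
    (∀ j < i, (C j).count 0 = 0) ∧ (C i).count 0 = 1 ∧ (∃ j, i < j ∧ j ≤ k ∧ 0 ∈ C j) ∧
      (∀ j, i < j → j ≤ k → 1 ∉ C j) := by
  have hs : ∑ j ∈ Finset.range i, z j = 0 := by
    apply Finset.sum_eq_zero
    intro j hj
    rw [Finset.mem_range] at hj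
    exact z0 j hj
  have hd : deg i z = 1 := by
    unfold deg
    rw [Finset.sum_range_succ, hs, z1]
  have h1 := (hz i hi).1
  rw [hd] at h1
  have h2 : deg i (ty C 0) = 1 := by omega
  have h3 : ∑ j ∈ Finset.range i, ty C 0 j = 0 := by
    cases i with
    | zero => simp
    | succ i =>
      have h4 := (hz i (by omega)).1
      have h5 : deg i z = 0 := hs
      rw [h5] at h4
      have h6 : deg i (ty C 0) = 0 := by omega
      exact h6
  have h7 : ∀ j < i, (C j).count 0 = 0 := by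
    intro j hj
    have h8 := Finset.sum_eq_zero_iff.1 h3 j (Finset.mem_range.2 hj)
    exact h8
  refine ⟨h7, ?_, ?_, ?_⟩
  · unfold deg at h2
    rw [Finset.sum_range_succ, h3] at h2
    have h9 : ty C 0 i = 1 := by omega
    exact h9
  · by_contra hcon
    obtain ⟨j, hj1, hj2, hj3⟩ := z2
    apply hj3
    apply (hz i hi).2.1 _ j hj1 hj2
    intro j' h1 h2
    have h10 : 0 ∉ C j' := fun hm => hcon ⟨j', h1, h2, hm⟩
    exact List.count_eq_zero.2 h10
  · intro j hj1 hj2
    have h11 := (hw i hi).2.2 w2 j hj1 hj2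
    exact List.count_eq_zero.1 h11

theorem alz_psh0 {k i : ℕ} (hi : i ≤ k) (C : ℕ → List ℕ) :
    pshB k (fun j => if j ≤ i then 0 else 1) C 0 = (List.range i).flatMap C ++ C i := by
  induction k with
  | zero =>
    have h : i = 0 := by omega
    subst h
    rw [pshB_zero]
    simp
  | succ k ih =>
    rw [pshB_succ]
    by_cases h : i = k + 1
    · subst h
      simp only [le_refl, if_true]
      congr 1
      unfold pshB
      rw [List.filter_eq_self.2]
      intro j hj
      rw [List.mem_range] at hj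
      rw [decide_eq_true_iff]
      exact if_pos (by omega)
    · have h1 : ¬ k + 1 ≤ i := by omega
      simp only [h1, if_false, one_ne_zero, List.append_nil]
      exact ih (by omega)

theorem alz_ones {l : List ℕ} (h : ∀ c ∈ l, c = 1) : l = List.replicate l.length 1 :=
  List.eq_replicate_of_mem h

theorem alz_form {k i : ℕ} (hi : i ≤ k) {C : ℕ → List ℕ} (h2 : Two01 k C)
    (h0 : ∀ j < i, (C j).count 0 = 0) (h1 : (C i).count 0 = 1) {P Q : List ℕ}
    (hPQ : C i = P ++ 0 :: Q) (hs : ∃ j, i < j ∧ j ≤ k ∧ 0 ∈ C j)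
    (hb : ∀ j, i < j → j ≤ k → 1 ∉ C j) :
    (∀ c ∈ Q, c = 1) ∧ ∃ m r, 1 ≤ r ∧
      asm 1 (pshB k (fun j => if j ≤ i then 0 else 1) C) =
        List.replicate m 1 ++ 0 :: (List.replicate Q.length 1 ++ 2 :: List.replicate r 0) := by
  rw [hPQ, List.count_append, List.count_cons_self] at h1
  have hP : 0 ∉ P := List.count_eq_zero.1 (by omega)
  have hQ : 0 ∉ Q := List.count_eq_zero.1 (by omega)
  have hP1 : ∀ c ∈ P, c = 1 := by
    intro c hc
    rcases h2 i hi c (by rw [hPQ]; simp [hc]) with h | h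
    · exact absurd (h ▸ hc) hP
    · exact h
  have hQ1 : ∀ c ∈ Q, c = 1 := by
    intro c hc
    rcases h2 i hi c (by rw [hPQ]; simp [hc]) with h | h
    · exact absurd (h ▸ hc) hQ
    · exact h
  have hX1 : ∀ c ∈ (List.range i).flatMap C, c = 1 := by
    intro c hc
    rw [List.mem_flatMap] at hc
    obtain ⟨j, hj, hcj⟩ := hc
    rw [List.mem_range] at hj
    rcases h2 j (by omega) c hcj with h | h
    · exact absurd (h ▸ hcj) (List.count_eq_zero.1 (h0 j hj))
    · exact h
  have hXP : ∀ c ∈ (List.range i).flatMap C ++ P, c = 1 := by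
    intro c hc
    rw [List.mem_append] at hc
    exact hc.elim (hX1 c) (hP1 c)
  have hY : ∀ c ∈ pshB k (fun j => if j ≤ i then 0 else 1) C 1, c = 0 := by
    intro c hc
    rw [mem_pshB] at hc
    obtain ⟨j, hj, hf, hcj⟩ := hc
    have hij : i < j := by
      by_contra hcon
      rw [if_pos (by omega)] at hf
      omega
    rcases h2 j hj c hcj with h | h
    · exact h
    · exact absurd (h ▸ hcj) (hb j hij hj)
  refine ⟨hQ1, ((List.range i).flatMap C ++ P).length,
    (pshB k (fun j => if j ≤ i then 0 else 1) C 1).length, ?_, ?_⟩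
  · obtain ⟨j, hj1, hj2, hj3⟩ := hs
    have hm : 0 ∈ pshB k (fun j => if j ≤ i then 0 else 1) C 1 := by
      rw [mem_pshB]
      exact ⟨j, hj2, by rw [if_neg (by omega)], hj3⟩
    exact List.length_pos_of_mem hm
  · have e : asm 1 (pshB k (fun j => if j ≤ i then 0 else 1) C) =
        pshB k (fun j => if j ≤ i then 0 else 1) C 0 ++
          2 :: pshB k (fun j => if j ≤ i then 0 else 1) C 1 := rfl
    rw [e, alz_psh0 hi, hPQ]
    rw [← alz_ones hXP, ← alz_ones hQ1, ← List.eq_replicate_of_mem hY]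
    simp [List.append_assoc]

theorem alz_star {β θ : FIC} (hβ : ClM β) (hle : β ≤ θ) (hgmd : GmdStmt) {m m' n r r' : ℕ}
    (hn : 1 ≤ n) (hr : 1 ≤ r) (hr' : 1 ≤ r')
    (h : RR θ (List.replicate m 1 ++ 0 :: (2 :: List.replicate r 0))
      (List.replicate m' 1 ++ 0 :: (List.replicate n 1 ++ 2 :: List.replicate r' 0))) :
    RR θ [1, 1, 0, 2, 0] [1, 1, 0, 1, 1, 2, 0] := by
  obtain ⟨g1, g2⟩ := hgmd β hβ
  have e1 : RR θ [1, 1, 0, 2, 0]
      ([1, 1] ++ (List.replicate m 1 ++ 0 :: (2 :: List.replicate r 0))) := by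
    have h1 : RR θ (List.replicate 2 1 ++ [0, 2, 0]) (List.replicate (m + 2) 1 ++ [0, 2, 0]) :=
      hle _ _ ((g2 1 2 (m + 2) (le_refl _) (by omega)).append (RR.refl _))
    have h2 : RR θ ((List.replicate (m + 2) 1 ++ [0, 2]) ++ (List.replicate 1 0 ++ []))
        ((List.replicate (m + 2) 1 ++ [0, 2]) ++ (List.replicate r 0 ++ [])) :=
      hle _ _ (g1 _ _ 0 1 r (by simp) (le_refl _) hr)
    have h3 : RR θ (List.replicate (m + 2) 1 ++ [0, 2, 0])
        ([1, 1] ++ (List.replicate m 1 ++ 0 :: (2 :: List.replicate r 0))) := by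
      simpa [List.replicate_succ] using h2
    have h4 : RR θ [1, 1, 0, 2, 0] (List.replicate (m + 2) 1 ++ [0, 2, 0]) := by
      simpa [List.replicate_succ] using h1
    exact θ.trans h4 h3
  have e2 : RR θ [1, 1, 0, 1, 1, 2, 0]
      ([1, 1] ++ (List.replicate m' 1 ++ 0 ::
        (List.replicate n 1 ++ 2 :: List.replicate r' 0))) := by
    have h1 : RR θ (List.replicate 2 1 ++ [0, 1, 1, 2, 0])
        (List.replicate (m' + 2) 1 ++ [0, 1, 1, 2, 0]) :=
      hle _ _ ((g2 1 2 (m' + 2) (le_refl _) (by omega)).append (RR.refl _))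
    have h2 : RR θ ((List.replicate (m' + 2) 1 ++ [0]) ++ (List.replicate 2 1 ++ [2, 0]))
        ((List.replicate (m' + 2) 1 ++ [0]) ++ (List.replicate n 1 ++ [2, 0])) :=
      hle _ _ (g1 _ _ 1 2 n (by simp [List.replicate_succ]) (by omega) hn)
    have h3 : RR θ
        ((List.replicate (m' + 2) 1 ++ (0 :: (List.replicate n 1 ++ [2]))) ++
          (List.replicate 1 0 ++ []))
        ((List.replicate (m' + 2) 1 ++ (0 :: (List.replicate n 1 ++ [2]))) ++
          (List.replicate r' 0 ++ [])) :=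
      hle _ _ (g1 _ _ 0 1 r' (by simp) (le_refl _) hr')
    have h4 : RR θ [1, 1, 0, 1, 1, 2, 0] (List.replicate (m' + 2) 1 ++ [0, 1, 1, 2, 0]) := by
      simpa [List.replicate_succ] using h1
    have h5 : RR θ (List.replicate (m' + 2) 1 ++ [0, 1, 1, 2, 0])
        (List.replicate (m' + 2) 1 ++ (0 :: (List.replicate n 1 ++ [2, 0]))) := by
      simpa [List.replicate_succ] using h2
    have h6 : RR θ (List.replicate (m' + 2) 1 ++ (0 :: (List.replicate n 1 ++ [2, 0])))
        ([1, 1] ++ (List.replicate m' 1 ++ 0 ::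
          (List.replicate n 1 ++ 2 :: List.replicate r' 0))) := by
      simpa [List.replicate_succ] using h3
    exact θ.trans h4 (θ.trans h5 h6)
  exact θ.trans e1 (θ.trans ((RR.refl (β := θ) [1, 1]).append h) (RR.symm e2))

theorem alz_bef : Bef [1, 1, 0] 1 0 := by
  intro P Q h
  rcases P with _ | ⟨p1, P⟩
  · simp at h
  · rcases P with _ | ⟨p2, P⟩
    · simp at h
    · rcases P with _ | ⟨p3, P⟩
      · simp at h
        rw [h.2.2]
        simp
      · simp at h

theorem alz_nbef : ¬ Bef [1, 1, 0, 1, 1] 1 0 := by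
  intro h
  exact h [1, 1] [1, 1] rfl (by simp)

theorem alz_upd (a b : ℕ → ℕ) (i : ℕ) (l l' : List ℕ) :
    cb a b i l' = Function.update (cb a b i l) i l' := by
  funext j
  by_cases h : j = i
  · subst h
    simp [cb]
  · rw [Function.update_of_ne h]
    simp [cb, h]

/-- from the short identity to the edge -/
theorem alz_edge {θ : FIC} {k i : ℕ} (hi : i ≤ k) {a b : ℕ → ℕ}
    (hj : ∃ j, i < j ∧ j ≤ k ∧ a j ≠ 0) (h : RR θ [1, 1, 0, 2, 0] [1, 1, 0, 1, 1, 2, 0]) :
    RR θ (asm k (cb a b i [1, 1, 0])) (asm k (cb a b i [1, 1, 0, 1, 1])) := by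
  obtain ⟨j, hj1, hj2, hj3⟩ := hj
  have hm : 0 ∈ suf (cb a b i [1, 1, 0]) i (k - i) := by
    rw [mem_suf]
    right
    refine ⟨j, hj1, by omega, ?_⟩
    have h1 : j ≠ i := by omega
    have h2 : hm a j ≠ 0 := by
      unfold hm
      rw [if_neg hj3]
      split
      · omega
      · omega
    simp only [cb, if_neg h1, List.mem_append, List.mem_replicate]
    exact Or.inl ⟨h2, trivial⟩
  obtain ⟨q1, q2, hq⟩ := List.append_of_mem hm
  rw [alz_upd a b i [1, 1, 0] [1, 1, 0, 1, 1], asm_update hi, asm_split hi, hq]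
  have e : cb a b i [1, 1, 0] i = [1, 1, 0] := by simp [cb]
  rw [e]
  have h1 := h.sub (fun c => if c = 2 then q1 else [c])
  have h2 : RR θ ([1, 1, 0] ++ q1 ++ [0]) ([1, 1, 0, 1, 1] ++ q1 ++ [0]) := by
    simpa using h1
  have h3 := ((RR.refl (β := θ) (pre (cb a b i [1, 1, 0]) i)).append h2).append
    (RR.refl (β := θ) q2)
  simpa [List.append_assoc] using h3

theorem alz (hone : MVO.OneStmt) (hjpi : MWS.JpiStmt) (hbsm : BsmStmt) (hgmd : GmdStmt)
    (hcbt : CbtStmt) (hrga : RgaStmt) (hebx : EbxStmt) : AlzStmt := by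
  intro β hβ k a b i hrl hnl hbz
  obtain ⟨hi, hla, hbi, _⟩ := hrl.vis
  have hmL : mL b i = ([1, 1, 0], [1, 1, 0, 1, 1]) := by
    unfold mL
    rw [if_neg hnl]
  have heL : eL k a b i = (asm k (cb a b i [1, 1, 0]), asm k (cb a b i [1, 1, 0, 1, 1])) := by
    unfold eL
    rw [hmL]
  have hadm0 : Adm b i [1, 1, 0] :=
    ⟨by simp, by simp, fun h => absurd h hnl, fun _ => by simp⟩
  have hadm1 : Adm b i [1, 1, 0, 1, 1] :=
    ⟨by simp, by simp, fun h => absurd h hnl, fun _ => by simp⟩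
  obtain ⟨ok0, two0, _, _⟩ := hcbt k a b i _ hrl hadm0
  obtain ⟨ok1, _, _, _⟩ := hcbt k a b i _ hrl hadm1
  have haj : ∃ j, i < j ∧ j ≤ k ∧ a j ≠ 0 := by
    by_contra hcon
    have h1 : deg k a ≤ 1 := by
      unfold deg
      have h2 : ∑ j ∈ Finset.range (k + 1), a j ≤
          ∑ j ∈ Finset.range (k + 1), if j = i then 1 else 0 := by
        apply Finset.sum_le_sum
        intro j hj
        rw [Finset.mem_range] at hj
        by_cases h3 : j = i
        · rw [if_pos h3, h3, hla.1]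
        · rw [if_neg h3]
          by_cases h4 : j < i
          · rw [hla.2 j h4]
          · by_contra h5
            exact hcon ⟨j, by omega, by omega, by omega⟩
      refine h2.trans ?_
      rw [Finset.sum_ite_eq' (Finset.range (k + 1)) i (fun _ => 1)]
      split
      · omega
      · omega
    have h2 := hrl.da
    omega
  rw [heL]
  refine hjpi β (hbsm β hβ).toApI k (cb a b i [1, 1, 0]) (cb a b i [1, 1, 0, 1, 1])
    (fun B => Dt k (ty B 0) (ty (cb a b i [1, 1, 0]) 0) ∧
      Dt k (ty B 1) (ty (cb a b i [1, 1, 0]) 1) ∧ Bef (B i) 1 0) ok0 ok1 two0 ?_ ?_ ?_ ?_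
  · refine ⟨alz_dt_congr (fun _ _ => rfl), alz_dt_congr (fun _ _ => rfl), ?_⟩
    have e : cb a b i [1, 1, 0] i = [1, 1, 0] := by simp [cb]
    rw [e]
    exact alz_bef
  · intro h
    have e : cb a b i [1, 1, 0, 1, 1] i = [1, 1, 0, 1, 1] := by simp [cb]
    have h1 := h.2.2
    rw [e] at h1
    exact alz_nbef h1
  · intro B B' hBB h
    have hty : ∀ c, Dt k (ty B' c) (ty B c) := by
      intro c
      apply alz_dt_congr
      intro j hj
      unfold ty
      rw [hBB j hj]
    refine ⟨alz_dt_trans (hty 0) h.1, alz_dt_trans (hty 1) h.2.1, ?_⟩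
    rw [← hBB i hi]
    exact h.2.2
  · intro θ hle _ hne B B' okB okB' twB twB' hr hA
    have hE : ¬ EE θ := by
      intro h
      apply hne
      have h1 := (hebx β θ hβ hle (Or.inl h) k a b i hrl).1
      unfold XL at h1
      rw [heL] at h1
      exact h1
    have hT : ¬ TT θ := by
      intro h
      apply hne
      have h1 := (hebx β θ hβ hle (Or.inr h) k a b i hrl).1
      unfold XL at h1
      rw [heL] at h1
      exact h1
    have hty : ∀ c, NS k c → Dt k (ty B' c) (ty B c) := by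
      intro c hc
      exact alz_dt_symm (hrga β θ hβ hle hE hT k _ _ (hone.1 θ k B B' c hc okB.ok okB'.ok hr))
    have ns0 : NS k 0 := by
      intro h
      omega
    have ns1 : NS k 1 := by
      intro h
      omega
    have hA0 := alz_dt_trans (hty 0 ns0) hA.1
    have hA1 := alz_dt_trans (hty 1 ns1) hA.2.1
    refine ⟨hA0, hA1, ?_⟩
    by_contra hnb
    have hnb' : ∃ P Q : List ℕ, B' i = P ++ 0 :: Q ∧ 1 ∈ Q := by
      by_contra hcon
      apply hnb
      intro P Q hPQ hm
      exact hcon ⟨P, Q, hPQ, hm⟩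
    obtain ⟨P', Q', hPQ', hm'⟩ := hnb'
    have z1 : ty (cb a b i [1, 1, 0]) 0 i = 1 := by
      simp [ty, cb]
    have z0 : ∀ j < i, ty (cb a b i [1, 1, 0]) 0 j = 0 := by
      intro j hj
      have h1 : j ≠ i := by omega
      have h2 : hm a j = 0 := by
        unfold hm
        rw [if_pos (hla.2 j hj)]
      simp [ty, cb, h1, h2, List.count_replicate]
    have z2 : ∃ j, i < j ∧ j ≤ k ∧ ty (cb a b i [1, 1, 0]) 0 j ≠ 0 := by
      obtain ⟨j, hj1, hj2, hj3⟩ := haj
      refine ⟨j, hj1, hj2, ?_⟩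
      have h1 : j ≠ i := by omega
      have h2 : hm a j ≠ 0 := by
        unfold hm
        rw [if_neg hj3]
        split
        · omega
        · omega
      simp [ty, cb, h1, h2, List.count_replicate]
    have w2 : ∀ j, i < j → j ≤ k → ty (cb a b i [1, 1, 0]) 1 j = 0 := by
      intro j hj1 hj2
      have h1 : j ≠ i := by omega
      have h2 : hm b j = 0 := by
        unfold hm
        rw [if_pos (hbz j hj1 hj2)]
      simp [ty, cb, h1, h2, List.count_replicate]
    obtain ⟨f0, f1, f2, f3⟩ := alz_facts hi hA.1 hA.2.1 z1 z0 z2 w2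
    obtain ⟨f0', f1', f2', f3'⟩ := alz_facts hi hA0 hA1 z1 z0 z2 w2
    have hmem : 0 ∈ B i := by
      rw [← List.count_pos_iff, f1]
      omega
    obtain ⟨P, Q, hPQ⟩ := List.append_of_mem hmem
    obtain ⟨hQ1, m, r, hr1, hw⟩ := alz_form hi twB f0 f1 hPQ f2 f3
    obtain ⟨_, m', r', hr1', hw'⟩ := alz_form hi twB' f0' f1' hPQ' f2' f3'
    have hQ : Q = [] := by
      cases Q with
      | nil => rfl
      | cons q Q =>
        have h1 := hQ1 q (by simp)
        subst h1
        exact absurd (by simp) (hA.2.2 P (1 :: Q) hPQ)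
    subst hQ
    have hf : BMap k 1 (fun j => if j ≤ i then 0 else 1) := by
      constructor
      · intro j j' hjj _
        split <;> split <;> omega
      · intro j _
        split <;> omega
    have hp := rr_push θ hf okB.ok okB'.ok hr
    rw [hw, hw'] at hp
    apply hne
    apply alz_edge hi haj
    apply alz_star hβ hle hgmd (n := Q'.length) (List.length_pos_of_mem hm') hr1 hr1' (m := m)
      (m' := m')
    simpa using hp

end Pool.Agent.MWG.H89
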