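import Pool.Agent.MWG.Stmts

/-!
# Block MWG (MP_23468a_al), row SMO
-/

set_option autoImplicit false

namespace Pool.Agent.MWG.H89

open Pool.Agent.Helper14_MV Pool.Agent.Helper2_MV Pool.Agent.MVO Pool.Agent.MWL Pool.Agent.MWS
  Pool.Agent.MWG

theorem ty_eq_zero {k : ℕ} {B : ℕ → List ℕ} (hB : OkB k B) {c : ℕ} (hc : ¬ NS k c) {j : ℕ}
    (hj : j ≤ k) : ty B c j = 0 := by
  unfold ty
  exact List.count_eq_zero.2 fun h => hc (hB.ok j hj c h)

theorem smo : SmoStmt := by
  intro k B B' hB hB' hS c j hj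
  by_cases hc : NS k c
  · have hs : ∀ i ≤ k, (ty B c i = 0 ↔ ty B' c i = 0) ∧ (ty B c i = 1 ↔ ty B' c i = 1) := by
      intro i hi
      have := hS c hc i hi
      rcases this with h | h
      · rw [h]
        exact ⟨Iff.rfl, Iff.rfl⟩
      · constructor <;> omega
    refine ⟨(hs j hj).1, ?_⟩
    unfold Lf
    rw [(hs j hj).2]
    refine and_congr_right fun _ => forall_congr' fun i => forall_congr' fun hi => ?_
    exact (hs i (by omega)).1
  · have h0 := ty_eq_zero hB hc hj
    have h1 := ty_eq_zero hB' hc hj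
    refine ⟨⟨fun _ => h1, fun _ => h0⟩, ?_⟩
    unfold Lf
    rw [h0, h1]
    constructor
    · intro h
      exact absurd h.1 (by omega)
    · intro h
      exact absurd h.1 (by omega)

end Pool.Agent.MWG.H89
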